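import Pool.Agent.Q297.ChN

/-!
The factor `g` of Chernoff's density (`f_Z(z) = g(z) g(-z) / 2`) is not in the logarithmic
hyperbolically completely monotone class.
-/

open MeasureTheory Set Filter Topology
open Pool.Agent.H140R2.FR (Ai)
open scoped ContDiff

namespace Pool.Agent.Results.MP_b46d52_pr.NotHyperbolic

/-- `F` is completely monotone on `(2, ∞)` -/
def CompletelyMonotone (F : ℝ → ℝ) : Prop :=
  ContDiffOn ℝ ∞ F (Ioi 2) ∧ ∀ (n : ℕ) (w : ℝ), 2 < w → 0 ≤ (-1) ^ n * iteratedDeriv n F w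

/-- the class `HM_∞`: for every `u > 0`, `p (u v) p (u / v)` is a completely monotone function of
`v + 1 / v` -/
def HM (p : ℝ → ℝ) : Prop :=
  (∀ x, 0 < x → 0 ≤ p x) ∧ ∀ u, 0 < u → ∃ F : ℝ → ℝ, CompletelyMonotone F ∧
    ∀ v, 1 < v → p (u * v) * p (u / v) = F (v + 1 / v)

/-- the class `log (HM_∞)` -/
def LogHM (k : ℝ → ℝ) : Prop :=
  Integrable k ∧ (∀ s, 0 ≤ k s) ∧ 0 < ∫ s, k s ∧ HM (fun x => k (Real.log x) / x)

lemma good_of_logHM {g : ℝ → ℝ} (hc : Continuous g) (hpos : ∀ s, 0 < g s) (hint : Integrable g)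
    (h : LogHM g) : Q297.ChG.Good g := by
  obtain ⟨-, -, -, -, hHM⟩ := h
  -- the functions F_a
  have key : ∀ a : ℝ, ∃ F : ℝ → ℝ, AntitoneOn F (Ioi 2) ∧ ConvexOn ℝ (Ioi 2) F ∧
      ∀ s, 0 < s → g (a + s) * g (a - s) = F (Real.exp s + Real.exp (-s)) := by
    intro a
    obtain ⟨F, ⟨hF, hF2⟩, hv⟩ := hHM (Real.exp a) (Real.exp_pos a)
    have hd : ∀ w, 2 < w → DifferentiableAt ℝ F w := fun w hw =>
      (hF.differentiableOn (by simp)).differentiableAt (Ioi_mem_nhds hw)
    have hd2 : ∀ w, 2 < w → DifferentiableAt ℝ (deriv F) w := fun w hw => by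
      have h1 : ContDiffOn ℝ 1 (deriv F) (Ioi 2) := by
        refine hF.deriv_of_isOpen isOpen_Ioi ?_
        exact WithTop.coe_le_coe.2 le_top
      exact (h1.differentiableOn (by simp)).differentiableAt (Ioi_mem_nhds hw)
    have hcont : ContinuousOn F (Ioi 2) := hF.continuousOn
    have hA : AntitoneOn F (Ioi 2) := by
      refine antitoneOn_of_deriv_nonpos (convex_Ioi 2) hcont ?_ ?_
      · rw [interior_Ioi]
        exact fun w hw => (hd w hw).differentiableWithinAt
      · rw [interior_Ioi]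
        intro w hw
        have := hF2 1 w hw
        rw [iteratedDeriv_one] at this
        linarith
    have hC : ConvexOn ℝ (Ioi 2) F := by
      refine convexOn_of_deriv2_nonneg' (convex_Ioi 2)
        (fun w hw => (hd w hw).differentiableWithinAt)
        (fun w hw => (hd2 w hw).differentiableWithinAt) ?_
      intro w hw
      have := hF2 2 w hw
      rw [iteratedDeriv_eq_iterate] at this
      simpa using this
    refine ⟨fun w => Real.exp (2 * a) * F w, ?_, ?_, ?_⟩
    · intro x hx y hy hxy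
      exact mul_le_mul_of_nonneg_left (hA hx hy hxy) (Real.exp_pos _).le
    · exact hC.smul (Real.exp_pos _).le
    · intro s hs
      have h1 := hv (Real.exp s) (Real.one_lt_exp_iff.2 hs)
      simp only at h1
      rw [← Real.exp_add, ← Real.exp_sub, Real.log_exp, Real.log_exp, one_div, ← Real.exp_neg] at h1
      simp only
      rw [← h1]
      have e : Real.exp (2 * a) = Real.exp (a + s) * Real.exp (a - s) := by
        rw [← Real.exp_add]; congr 1; ring
      rw [e]
      have e1 := (Real.exp_pos (a + s)).ne'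
      have e2 := (Real.exp_pos (a - s)).ne'
      field_simp
  have hw : ∀ s : ℝ, 0 < s → 2 < Real.exp s + Real.exp (-s) := by
    intro s hs
    have h1 : 0 < Real.exp (s / 2) - Real.exp (-(s / 2)) :=
      sub_pos.2 (Real.exp_lt_exp.2 (by linarith))
    have h2 : Real.exp s = Real.exp (s / 2) ^ 2 := by rw [← Real.exp_nat_mul]; congr 1; ring
    have h3 : Real.exp (-s) = Real.exp (-(s / 2)) ^ 2 := by
      rw [← Real.exp_nat_mul]; congr 1; push_cast; ring
    have h4 : Real.exp (s / 2) * Real.exp (-(s / 2)) = 1 := by rw [← Real.exp_add]; simp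
    rw [h2, h3]
    nlinarith [mul_pos h1 h1]
  have hwm : ∀ s t : ℝ, 0 < s → s < t → Real.exp s + Real.exp (-s) < Real.exp t + Real.exp (-t) := by
    intro s t hs hst
    have h1 : 1 < Real.exp s := Real.one_lt_exp_iff.2 hs
    have h2 : Real.exp s < Real.exp t := Real.exp_lt_exp.2 hst
    have h3 : Real.exp (-s) * Real.exp s = 1 := by rw [← Real.exp_add]; simp
    have h4 : Real.exp (-t) * Real.exp t = 1 := by rw [← Real.exp_add]; simp
    have p1 := Real.exp_pos (-s)
    have p2 := Real.exp_pos (-t)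
    have e1 : Real.exp (-s) = (Real.exp s)⁻¹ := Real.exp_neg s
    have e2 : Real.exp (-t) = (Real.exp t)⁻¹ := Real.exp_neg t
    have h5 : Real.exp (-s) - Real.exp (-t) =
        (Real.exp t - Real.exp s) / (Real.exp s * Real.exp t) := by
      rw [e1, e2]
      have := (Real.exp_pos s).ne'
      have := (Real.exp_pos t).ne'
      field_simp
    have h6 : (Real.exp t - Real.exp s) / (Real.exp s * Real.exp t) < Real.exp t - Real.exp s := by
      rw [div_lt_iff₀ (by positivity)]
      have : 1 < Real.exp s * Real.exp t := by nlinarith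
      nlinarith
    linarith
  -- antitone in s > 0, then s ≥ 0
  have hanti0 : ∀ a s s', 0 < s' → s' ≤ s → g (a + s) * g (a - s) ≤ g (a + s') * g (a - s') := by
    intro a s s' h0 h1
    obtain ⟨F, hA, -, hF⟩ := key a
    rw [hF s (by linarith), hF s' h0]
    refine hA (hw s' h0) (hw s (by linarith)) ?_
    rcases h1.eq_or_lt with h | h
    · rw [h]
    · exact (hwm s' s h0 h).le
  refine ⟨hc, hpos, hint, ?_, ?_⟩
  · intro a s s' h0 h1
    rcases h0.eq_or_lt with h | h
    · subst h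
      rcases h1.eq_or_lt with h' | h'
      · rw [← h']
      · have hcont : Continuous (fun r => g (a + r) * g (a - r)) := by fun_prop
        have hl : Tendsto (fun r => g (a + r) * g (a - r)) (𝓝[>] 0) (𝓝 (g (a + 0) * g (a - 0))) :=
          (hcont.tendsto 0).mono_left nhdsWithin_le_nhds
        refine ge_of_tendsto hl ?_
        filter_upwards [Ioo_mem_nhdsGT h'] with r hr
        exact hanti0 a s r hr.1 hr.2.le
    · exact hanti0 a s s' h h1
  · intro a s₁ s₂ s₃ h0 h1 h2
    obtain ⟨F, -, hC, hF⟩ := key a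
    rw [hF s₁ h0, hF s₂ (by linarith), hF s₃ (by linarith)]
    set w₁ := Real.exp s₁ + Real.exp (-s₁) with hw1
    set w₂ := Real.exp s₂ + Real.exp (-s₂) with hw2
    set w₃ := Real.exp s₃ + Real.exp (-s₃) with hw3
    have l12 : w₁ < w₂ := hwm s₁ s₂ h0 h1
    have l23 : w₂ < w₃ := hwm s₂ s₃ (by linarith) h2
    have h3 := hC.2 (hw s₁ h0) (hw s₃ (by linarith))
      (show 0 ≤ (w₃ - w₂) / (w₃ - w₁) from div_nonneg (by linarith) (by linarith))
      (show 0 ≤ (w₂ - w₁) / (w₃ - w₁) from div_nonneg (by linarith) (by linarith))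
      (by
        have : w₃ - w₁ ≠ 0 := by linarith
        field_simp
        ring)
    simp only [smul_eq_mul] at h3
    rw [← hw1, ← hw3] at h3
    have hne : w₃ - w₁ ≠ 0 := by linarith
    have e : (w₃ - w₂) / (w₃ - w₁) * w₁ + (w₂ - w₁) / (w₃ - w₁) * w₃ = w₂ := by
      field_simp
      ring
    rw [e] at h3
    have h4 := mul_le_mul_of_nonneg_left h3 (show 0 ≤ w₃ - w₁ by linarith)
    calc (w₃ - w₁) * F w₂ ≤ _ := h4
      _ = _ := by field_simp

/-- **`g` is not in `log (HM_∞)`.** -/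
theorem result (g : ℝ → ℝ) (hcont : Continuous g) (hpos : ∀ s, 0 < g s) (hint : Integrable g)
    (hft : ∀ l : ℝ, ∫ s : ℝ, Complex.exp (Complex.I * l * s) * (g s : ℂ) =
      ((2 ^ (1 / 3 : ℝ) : ℝ) : ℂ) / Ai (Complex.I * ((2 ^ (-(1 / 3) : ℝ) : ℝ) : ℂ) * l)) :
    ¬ LogHM g := by
  intro h
  have hκ0 : (0 : ℝ) < 2 ^ (1 / 3 : ℝ) := by positivity
  have hκ3 : ((2 : ℝ) ^ (1 / 3 : ℝ)) ^ 3 = 2 := by
    rw [← Real.rpow_natCast, ← Real.rpow_mul (by norm_num)]; norm_num
  have hκ : (5 / 4 : ℝ) < 2 ^ (1 / 3 : ℝ) := by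
    by_contra hle
    push Not at hle
    have : ((2 : ℝ) ^ (1 / 3 : ℝ)) ^ 3 ≤ (5 / 4) ^ 3 := pow_le_pow_left₀ hκ0.le hle 3
    rw [hκ3] at this
    norm_num at this
  refine Q297.ChN.main (good_of_logHM hcont hpos hint h) hκ fun l => ?_
  rw [hft l]
  congr 2
  rw [Real.rpow_neg (by norm_num)]
  push_cast
  ring

end Pool.Agent.Results.MP_b46d52_pr.NotHyperbolic
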